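import Pool.Agent.Y456.GJ.Rat

set_option autoImplicit false

/-!
# The number of zeros of a polynomial in a class modulo the integers
-/

open Polynomial

namespace Pool.Agent.Y456.RL

open Pool.Agent.Y456.GJ (sp sp_apply)

/-- the number of zeros of `p` in `α + ℤ` -/
noncomputable def cnt (α : ℂ) (p : ℂ[X]) : ℕ := ∑ᶠ n : ℤ, p.rootMultiplicity (α + n)

theorem cnt_fin (α : ℂ) {p : ℂ[X]} (hp : p ≠ 0) :
    (Function.support fun n : ℤ => p.rootMultiplicity (α + n)).Finite := by
  have hinj : Set.InjOn (fun n : ℤ => α + (n : ℂ)) ((fun n : ℤ => α + (n : ℂ)) ⁻¹' (p.roots.toFinset : Set ℂ)) := by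
    intro a _ b _ h
    exact Int.cast_injective (add_left_cancel h)
  refine (p.roots.toFinset.finite_toSet.preimage hinj).subset ?_
  intro n hn
  rw [Function.mem_support] at hn
  rw [Set.mem_preimage, Finset.mem_coe, Multiset.mem_toFinset, mem_roots hp]
  by_contra h
  exact hn (rootMultiplicity_eq_zero h)

theorem cnt_mul (α : ℂ) {p q : ℂ[X]} (hp : p ≠ 0) (hq : q ≠ 0) : cnt α (p * q) = cnt α p + cnt α q := by
  rw [cnt, cnt, cnt, ← finsum_add_distrib (cnt_fin α hp) (cnt_fin α hq)]
  exact finsum_congr fun n => rootMultiplicity_mul (mul_ne_zero hp hq)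

theorem cnt_one (α : ℂ) : cnt α 1 = 0 := by
  rw [cnt]
  have : ∀ n : ℤ, (1 : ℂ[X]).rootMultiplicity (α + n) = 0 := fun n =>
    rootMultiplicity_eq_zero (by simp [IsRoot])
  simp [this]

theorem cnt_pow (α : ℂ) {p : ℂ[X]} (hp : p ≠ 0) (k : ℕ) : cnt α (p ^ k) = k * cnt α p := by
  induction k with
  | zero => rw [pow_zero, cnt_one, zero_mul]
  | succ k ih => rw [pow_succ, cnt_mul α (pow_ne_zero _ hp) hp, ih, Nat.succ_mul]

theorem cnt_prod (α : ℂ) {ι : Type*} (s : Finset ι) (f : ι → ℂ[X]) (hf : ∀ i ∈ s, f i ≠ 0) :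
    cnt α (∏ i ∈ s, f i) = ∑ i ∈ s, cnt α (f i) := by
  classical
  induction s using Finset.induction_on with
  | empty => rw [Finset.prod_empty, cnt_one, Finset.sum_empty]
  | insert a s ha ih =>
    rw [Finset.prod_insert ha, Finset.sum_insert ha, cnt_mul α (hf a (Finset.mem_insert_self a s)), ih]
    · exact fun i hi => hf i (Finset.mem_insert_of_mem hi)
    · rw [Finset.prod_ne_zero_iff]
      exact fun i hi => hf i (Finset.mem_insert_of_mem hi)

theorem cnt_sp (α : ℂ) (p : ℂ[X]) : cnt α (sp p) = cnt α p := by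
  have h1 : ∀ x : ℂ, (sp p).rootMultiplicity x = p.rootMultiplicity (x + 1) := by
    intro x
    rw [rootMultiplicity_eq_rootMultiplicity, sp_apply, comp_assoc,
      rootMultiplicity_eq_rootMultiplicity (t := x + 1)]
    congr 2
    simp only [add_comp, X_comp, one_comp, map_add, map_one]
    ring
  rw [cnt, cnt, ← finsum_comp_equiv (Equiv.subRight (1 : ℤ))]
  refine finsum_congr fun n => ?_
  rw [h1]
  congr 1
  simp only [Equiv.subRight_apply, Int.cast_sub, Int.cast_one]
  ring

theorem cnt_lin (α a c : ℂ) (ha : a ≠ 0) [Decidable (∃ n : ℤ, a * (α + n) + c = 0)] :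
    cnt α (C a * X + C c) = if ∃ n : ℤ, a * (α + n) + c = 0 then 1 else 0 := by
  classical
  have h0 : C a * X + C c = C a * (X - C (-c / a)) := by
    rw [mul_sub, ← C_mul, mul_div_cancel₀ _ ha, C_neg, sub_neg_eq_add]
  have h1 : ∀ x : ℂ, (C a * X + C c).rootMultiplicity x = if a * x + c = 0 then 1 else 0 := by
    intro x
    rw [h0, rootMultiplicity_mul (mul_ne_zero (C_ne_zero.2 ha) (X_sub_C_ne_zero _)), rootMultiplicity_C, zero_add,
      rootMultiplicity_X_sub_C]
    have : (x = -c / a) ↔ a * x + c = 0 := by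
      rw [eq_div_iff ha]
      constructor
      · intro h
        linear_combination h
      · intro h
        linear_combination h
    simp only [this]
  rw [cnt]
  simp only [h1]
  split_ifs with h
  · obtain ⟨n, hn⟩ := h
    rw [finsum_eq_single _ n]
    · rw [if_pos hn]
    · intro m hm
      rw [if_neg]
      intro h2
      apply hm
      have h3 : a * ((m : ℂ) - n) = 0 := by linear_combination h2 - hn
      rcases mul_eq_zero.1 h3 with h4 | h4
      · exact absurd h4 ha
      · exact_mod_cast sub_eq_zero.1 h4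
  · push Not at h
    have : ∀ n : ℤ, (if a * (α + n) + c = 0 then 1 else 0 : ℕ) = 0 := fun n => if_neg (h n)
    simp [this]

/-- for every integer `w` exactly one of the numbers `0, …, |a| - 1` is congruent to `w` -/
theorem one_res (a : ℤ) (ha : a ≠ 0) (w : ℤ) [DecidablePred fun j : ℕ => ∃ n : ℤ, (j : ℤ) = w + a * n] :
    ((Finset.range a.natAbs).filter (fun j : ℕ => ∃ n : ℤ, (j : ℤ) = w + a * n)).card = 1 := by
  rw [Finset.card_eq_one]
  refine ⟨(w % a).toNat, ?_⟩
  have h0 : 0 ≤ w % a := Int.emod_nonneg w ha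
  have h1 : w % a < |a| := Int.emod_lt_abs w ha
  ext j
  rw [Finset.mem_filter, Finset.mem_range, Finset.mem_singleton]
  constructor
  · rintro ⟨hj, n, hn⟩
    have h2 : (j : ℤ) % a = w % a := by
      rw [hn, Int.add_mul_emod_self_left]
    have h3 : (j : ℤ) % a = j := by
      rw [← Int.emod_abs]
      apply Int.emod_eq_of_lt (by omega)
      rw [Int.abs_eq_natAbs]
      exact_mod_cast hj
    rw [← h2, h3]
    rfl
  · rintro rfl
    constructor
    · rw [Int.abs_eq_natAbs] at h1
      omega
    · refine ⟨-(w / a), ?_⟩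
      rw [Int.toNat_of_nonneg h0, mul_neg, ← sub_eq_add_neg]
      exact Int.emod_def w a

end Pool.Agent.Y456.RL
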