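import Mathlib

set_option autoImplicit false

/-!
# Independence of solutions of first order multiplicative equations
-/

open MvPolynomial

namespace Pool.Agent.Y456.RL

variable {K E S : Type*} [Field K] [Field E] [Fintype S] (τ : K →+* K) (T : E →+* E) (φ : K →+* E)
  (hφ : ∀ u, T (φ u) = φ (τ u)) (A : S → K) (y : S → E)

/-- the shifted polynomial -/
noncomputable def shP (F : MvPolynomial S K) : MvPolynomial S K :=
  ∑ k ∈ F.support, monomial k (τ (coeff k F) * ∏ s, A s ^ k s)

theorem coeff_shP (F : MvPolynomial S K) (m : S →₀ ℕ) :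
    coeff m (shP τ A F) = τ (coeff m F) * ∏ s, A s ^ m s := by
  classical
  rw [shP, coeff_sum]
  simp only [coeff_monomial]
  rw [Finset.sum_ite_eq' F.support m]
  split_ifs with h
  · rfl
  · rw [notMem_support_iff.1 h, map_zero, zero_mul]

include hφ in
theorem eval_shP (hT : ∀ s, T (y s) = φ (A s) * y s) (F : MvPolynomial S K) :
    eval₂ φ y (shP τ A F) = T (eval₂ φ y F) := by
  rw [eval₂_eq' φ y F, map_sum, shP, eval₂_sum]
  refine Finset.sum_congr rfl fun k _ => ?_
  rw [eval₂_monomial, map_mul, map_mul, hφ, map_prod, map_prod, Finsupp.prod_fintype _ _ (fun _ => pow_zero _)]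
  simp only [map_pow, hT, mul_pow]
  rw [Finset.prod_mul_distrib]
  ring

include hφ in
theorem mono_indep (hy : ∀ s, y s ≠ 0) (hT : ∀ s, T (y s) = φ (A s) * y s)
    (H : ∀ (k k' : S →₀ ℕ) (u v : K), u ≠ 0 → v ≠ 0 →
      τ u * (∏ s, A s ^ k s) * v = u * (τ v * ∏ s, A s ^ k' s) → k = k') :
    ∀ (n : ℕ) (F : MvPolynomial S K), F.support.card ≤ n → eval₂ φ y F = 0 → F = 0 := by
  classical
  intro n
  induction n with
  | zero =>
    intro F hn _
    exact support_eq_empty.1 (Finset.card_eq_zero.1 (Nat.le_zero.1 hn))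
  | succ n ih =>
    intro F hn hF
    by_contra hne
    obtain ⟨k0, hk0⟩ := support_nonempty.2 hne
    have hc0 : coeff k0 F ≠ 0 := mem_support_iff.1 hk0
    let G : MvPolynomial S K := C (τ (coeff k0 F) * ∏ s, A s ^ k0 s) * F - C (coeff k0 F) * shP τ A F
    have hG : ∀ m, coeff m G = τ (coeff k0 F) * (∏ s, A s ^ k0 s) * coeff m F -
        coeff k0 F * (τ (coeff m F) * ∏ s, A s ^ m s) := by
      intro m
      simp only [G]
      rw [coeff_sub, coeff_C_mul, coeff_C_mul, coeff_shP]
    have hGs : G.support ⊆ F.support.erase k0 := by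
      intro m hm
      rw [mem_support_iff, hG] at hm
      rw [Finset.mem_erase]
      constructor
      · rintro rfl
        apply hm
        ring
      · rw [mem_support_iff]
        intro h0
        apply hm
        rw [h0, map_zero]
        ring
    have hG0 : G = 0 := by
      apply ih
      · refine (Finset.card_le_card hGs).trans ?_
        rw [Finset.card_erase_of_mem hk0]
        omega
      · simp only [G]
        rw [eval₂_sub, eval₂_mul, eval₂_mul, eval_shP τ T φ hφ A y hT, hF, map_zero]
        ring
    have hall : ∀ k ∈ F.support, k = k0 := by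
      intro k hk
      have h1 := hG k
      rw [hG0, coeff_zero] at h1
      exact (H k0 k _ _ hc0 (mem_support_iff.1 hk) (sub_eq_zero.1 h1.symm)).symm
    have hs : F.support = {k0} := by
      ext k
      rw [Finset.mem_singleton]
      exact ⟨hall k, fun h => h ▸ hk0⟩
    rw [eval₂_eq', hs, Finset.sum_singleton] at hF
    rcases mul_eq_zero.1 hF with h | h
    · exact hc0 ((map_eq_zero φ).1 h)
    · rw [Finset.prod_eq_zero_iff] at h
      obtain ⟨s, _, hs'⟩ := h
      exact pow_ne_zero _ (hy s) hs'

end Pool.Agent.Y456.RL
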