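import Pool.Agent.Y456.RL.Gam
import Pool.Agent.Y456.RL.Mono
import Pool.Agent.Y456.DF.LogMain
import Pool.Agent.Y124.NFPoly

set_option autoImplicit false

/-!
# Independence of products of values of the Gamma function at affine functions
-/

open MvPolynomial Filter Topology

namespace Pool.Agent.Y456.RL

open Pool.Agent.Y456.GJ (sp sp_apply sp_inj tau tau_alg alg_inj XX)
open Pool.Agent.Y456.DF

/-- the complement of `(1/M) ℤ` -/
def UM (M : ℕ) : Set ℂ := {z | ∀ n : ℤ, (M : ℂ) * z ≠ n}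

theorem UM_compl (M : ℕ) : (UM M)ᶜ = {z : ℂ | ((M : ℂ) * z).im = 0} ∩
    (fun z : ℂ => ((M : ℂ) * z).re) ⁻¹' Set.range ((↑) : ℤ → ℝ) := by
  ext z
  simp only [UM, Set.mem_compl_iff, Set.mem_ofPred_eq, not_forall, not_not, Set.mem_inter_iff, Set.mem_preimage,
    Set.mem_range]
  constructor
  · rintro ⟨n, hn⟩
    rw [hn]
    exact ⟨by simp, n, by simp⟩
  · rintro ⟨h1, n, h2⟩
    refine ⟨n, Complex.ext ?_ ?_⟩
    · rw [← h2, Complex.intCast_re]
    · rw [h1, Complex.intCast_im]

theorem UM_open (M : ℕ) : IsOpen (UM M) := by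
  rw [← isClosed_compl_iff, UM_compl]
  refine IsClosed.inter (isClosed_eq (by fun_prop) continuous_const) ?_
  exact Int.isClosedEmbedding_coe_real.isClosed_range.preimage (by fun_prop)

variable {ι : Type} [Fintype ι] (a : ι → ℤ) (b : ι → ℚ) (ha : ∀ i, a i ≠ 0)

/-- the points at which no argument is an integer -/
def UG : Set ℂ := {z | ∀ i, Gen (a i) (b i) z}

theorem UG_open : IsOpen (UG a b) := by
  have h : UG a b = ⋂ i, (fun z : ℂ => (a i : ℂ) * z + b i) ⁻¹' UM 1 := by
    ext z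
    simp [UG, UM, Gen]
  rw [h]
  exact isOpen_iInter_of_finite fun i => (UM_open 1).preimage (by fun_prop)

include ha in
theorem UG_countable : ((UG a b)ᶜ).Countable := by
  have h2 : (UG a b)ᶜ ⊆ Set.range (fun p : ι × ℤ => ((p.2 : ℂ) - b p.1) / a p.1) := by
    intro z hz
    simp only [UG, Gen, Set.mem_compl_iff, Set.mem_ofPred_eq, not_forall, not_not] at hz
    obtain ⟨i, n, hn⟩ := hz
    refine ⟨(i, n), ?_⟩
    have h3 : (a i : ℂ) ≠ 0 := Int.cast_ne_zero.2 (ha i)
    change ((n : ℂ) - b i) / a i = z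
    rw [div_eq_iff h3, ← hn]
    ring
  exact (Set.countable_range _).mono h2

include ha in
theorem UG_pc : IsPreconnected (UG a b) := by
  have h1 : ((UG a b)ᶜ).Countable := UG_countable a b ha
  have h2 := (h1.isConnected_compl_of_one_lt_rank (by simp [Complex.rank_real_complex])).isPreconnected
  rwa [compl_compl] at h2

/-- the domain -/
def DG : Dom where
  U := UG a b
  op := UG_open a b
  pc := UG_pc a b ha
  ne := ⟨Complex.I, fun i n h => by
    have := congrArg Complex.im h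
    simp at this
    exact ha i this⟩
  sh := fun z hz i n h => hz i (n - a i) (by push_cast; linear_combination h)

/-- the product -/
noncomputable def P (κ : ι → ℤ) (z : ℂ) : ℂ := ∏ i, Complex.Gamma ((a i : ℂ) * z + b i) ^ κ i

theorem gam_ne {a : ℤ} {b : ℚ} {z : ℂ} (hz : Gen a b z) : Complex.Gamma ((a : ℂ) * z + b) ≠ 0 := by
  apply Complex.Gamma_ne_zero
  intro m h
  apply hz (-m)
  rw [h]
  simp

theorem gam_an {a : ℤ} {b : ℚ} {z : ℂ} (hz : Gen a b z) :
    AnalyticAt ℂ (fun z : ℂ => Complex.Gamma ((a : ℂ) * z + b)) z := by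
  have h1 : AnalyticAt ℂ Complex.Gamma ((a : ℂ) * z + b) := by
    have h2 : IsOpen (UM 1) := UM_open 1
    have h3 : DifferentiableOn ℂ Complex.Gamma (UM 1) := by
      intro w hw
      refine (Complex.differentiableAt_Gamma w fun m h => ?_).differentiableWithinAt
      apply hw (-m)
      rw [h]
      simp
    exact (h3.analyticOnNhd h2) _ fun n => by simpa using hz n
  exact AnalyticAt.comp (g := Complex.Gamma) (f := fun z : ℂ => (a : ℂ) * z + b) h1 (by fun_prop)

theorem P_an (κ : ι → ℤ) {z : ℂ} (hz : ∀ i, Gen (a i) (b i) z) : AnalyticAt ℂ (P a b κ) z := by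
  have : P a b κ = fun z => ∏ i, Complex.Gamma ((a i : ℂ) * z + b i) ^ κ i := rfl
  rw [this]
  refine Finset.analyticAt_fun_prod _ fun i _ => ?_
  exact (gam_an (hz i)).fun_zpow (gam_ne (hz i))

theorem P_ne (κ : ι → ℤ) {z : ℂ} (hz : ∀ i, Gen (a i) (b i) z) : P a b κ z ≠ 0 :=
  Finset.prod_ne_zero_iff.2 fun i _ => zpow_ne_zero _ (gam_ne (hz i))

end Pool.Agent.Y456.RL
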