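import Pool.Agent.Y456.RL.Cnt

set_option autoImplicit false

/-!
# Fractional parts
-/

namespace Pool.Agent.Y456.RL

theorem fr_div (c q : ℤ) (hc : 0 < c) (θ : ℚ) (h0 : 0 ≤ θ) (h1 : θ < 1) :
    Int.fract (((q : ℚ) + θ) / c) = (((q % c : ℤ) : ℚ) + θ) / c := by
  have hc' : (0 : ℚ) < c := by exact_mod_cast hc
  rw [Int.fract_eq_iff]
  have h2 : 0 ≤ q % c := Int.emod_nonneg q hc.ne'
  have h3 : q % c < c := Int.emod_lt_of_pos q hc
  have h2' : (0 : ℚ) ≤ ((q % c : ℤ) : ℚ) := by exact_mod_cast h2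
  have h3' : ((q % c : ℤ) : ℚ) + 1 ≤ c := by exact_mod_cast h3
  refine ⟨div_nonneg (by linarith) hc'.le, ?_, q / c, ?_⟩
  · rw [div_lt_one hc']
    linarith
  · have h4 : ((q : ℤ) : ℚ) = ((q % c : ℤ) : ℚ) + c * ((q / c : ℤ) : ℚ) := by
      exact_mod_cast (Int.emod_add_mul_ediv q c).symm
    rw [← sub_div, div_eq_iff hc'.ne']
    linarith

theorem sum_res (c : ℕ) (f : ℕ → ℤ) (hf : ∀ j < c, ∀ j' < c, (f j - f j') % c = 0 → j = j') (hc : 0 < c) :
    ∑ j ∈ Finset.range c, (((f j % c : ℤ)) : ℚ) = ((c : ℚ) * (c - 1)) / 2 := by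
  classical
  have hcZ : (0 : ℤ) < c := by exact_mod_cast hc
  let g : ℕ → ℕ := fun j => (f j % c).toNat
  have hg : ∀ j, ((g j : ℕ) : ℤ) = f j % c := fun j => Int.toNat_of_nonneg (Int.emod_nonneg _ hcZ.ne')
  have hinj : Set.InjOn g (Finset.range c) := by
    intro j hj j' hj' h
    have hj1 : j < c := by simpa using hj
    have hj2 : j' < c := by simpa using hj'
    apply hf j hj1 j' hj2
    have h1 : f j % c = f j' % c := by
      rw [← hg, ← hg, h]
    exact Int.emod_eq_emod_iff_emod_sub_eq_zero.1 h1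
  have himg : (Finset.range c).image g = Finset.range c := by
    apply Finset.eq_of_subset_of_card_le
    · intro v hv
      rw [Finset.mem_image] at hv
      obtain ⟨j, _, rfl⟩ := hv
      rw [Finset.mem_range]
      have := hg j
      have h3 : f j % c < c := Int.emod_lt_of_pos _ hcZ
      omega
    · rw [Finset.card_image_of_injOn hinj]
  have h1 : ∑ j ∈ Finset.range c, (((f j % c : ℤ)) : ℚ) = ∑ j ∈ Finset.range c, ((g j : ℕ) : ℚ) := by
    refine Finset.sum_congr rfl fun j _ => ?_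
    rw [← hg]
    simp
  rw [h1, ← Finset.sum_image (f := fun v : ℕ => (v : ℚ)) hinj, himg]
  have h2 := Finset.sum_range_id_mul_two c
  have h3 : (∑ v ∈ Finset.range c, (v : ℚ)) * 2 = c * (c - 1) := by
    have h4 : ((∑ v ∈ Finset.range c, v : ℕ) : ℚ) * 2 = ((c * (c - 1) : ℕ) : ℚ) := by exact_mod_cast h2
    rw [Nat.cast_sum] at h4
    rw [h4, Nat.cast_mul, Nat.cast_sub hc]
    simp
  linarith

theorem eq_of_res {c j j' : ℕ} (hj : j < c) (hj' : j' < c) (h : ((j : ℤ) - j') % (c : ℤ) = 0) : j = j' := by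
  have h1 := Int.emod_eq_emod_iff_emod_sub_eq_zero.2 h
  rw [Int.emod_eq_of_lt (by positivity) (by exact_mod_cast hj),
    Int.emod_eq_of_lt (by positivity) (by exact_mod_cast hj')] at h1
  exact_mod_cast h1

/-- the distribution relation of the first Bernoulli function -/
theorem raabe (a : ℤ) (ha : a ≠ 0) (W : ℚ) (hW : ∀ n : ℤ, W ≠ n) :
    Int.fract W - 1 / 2 = (Int.sign a : ℚ) * ∑ j ∈ Finset.range a.natAbs, (Int.fract ((W - j) / a) - 1 / 2) := by
  set q := ⌊W⌋
  set θ := Int.fract W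
  have hq : W = q + θ := (Int.floor_add_fract W).symm
  have h0 : 0 ≤ θ := Int.fract_nonneg W
  have h1 : θ < 1 := Int.fract_lt_one W
  have hθ : θ ≠ 0 := by
    intro h
    apply hW q
    rw [hq, h, add_zero]
  have hc : 0 < a.natAbs := Int.natAbs_pos.2 ha
  have hcQ : (0 : ℚ) < a.natAbs := by exact_mod_cast hc
  rw [Finset.sum_sub_distrib]
  rcases lt_or_gt_of_ne ha with hn | hp
  · have hab : (a : ℚ) = -((a.natAbs : ℕ) : ℚ) := by
      have h : a = -((a.natAbs : ℕ) : ℤ) := by omega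
      have h' : (a : ℚ) = ((-((a.natAbs : ℕ) : ℤ) : ℤ) : ℚ) := congrArg _ h
      rw [h', Int.cast_neg, Int.cast_natCast]
    have h2 : ∀ j ∈ Finset.range a.natAbs, Int.fract ((W - j) / a) =
        ((((j : ℤ) - q - 1) % (a.natAbs : ℤ) : ℤ) + (1 - θ)) / a.natAbs := by
      intro j _
      have h3 := fr_div (a.natAbs : ℤ) ((j : ℤ) - q - 1) (by exact_mod_cast hc) (1 - θ) (by linarith)
        (lt_of_le_of_ne (by linarith) (fun h => hθ (by linarith)))
      rw [Int.cast_natCast] at h3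
      rw [← h3]
      congr 1
      rw [hab, hq, div_neg, ← neg_div]
      congr 1
      push_cast
      ring
    rw [Finset.sum_congr rfl h2, ← Finset.sum_div, Finset.sum_add_distrib,
      sum_res a.natAbs (fun j => (j : ℤ) - q - 1) ?_ hc, Int.sign_eq_neg_one_of_neg hn]
    · simp only [Finset.sum_const, Finset.card_range, nsmul_eq_mul]
      field_simp
      push_cast
      ring
    · intro j hj j' hj' h
      have h4 : ((j : ℤ) - q - 1 - ((j' : ℤ) - q - 1)) = (j : ℤ) - j' := by ring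
      rw [h4] at h
      exact eq_of_res hj hj' h
  · have hab : (a : ℚ) = ((a.natAbs : ℕ) : ℚ) := by
      have h : a = ((a.natAbs : ℕ) : ℤ) := by omega
      have h' : (a : ℚ) = ((((a.natAbs : ℕ) : ℤ) : ℤ) : ℚ) := congrArg _ h
      rw [h', Int.cast_natCast]
    have h2 : ∀ j ∈ Finset.range a.natAbs, Int.fract ((W - j) / a) =
        (((q - (j : ℤ)) % (a.natAbs : ℤ) : ℤ) + θ) / a.natAbs := by
      intro j _
      have h3 := fr_div (a.natAbs : ℤ) (q - (j : ℤ)) (by exact_mod_cast hc) θ h0 h1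
      rw [Int.cast_natCast] at h3
      rw [← h3]
      congr 1
      rw [hab, hq]
      congr 1
      push_cast
      ring
    rw [Finset.sum_congr rfl h2, ← Finset.sum_div, Finset.sum_add_distrib,
      sum_res a.natAbs (fun j => q - (j : ℤ)) ?_ hc, Int.sign_eq_one_of_pos hp]
    · simp only [Finset.sum_const, Finset.card_range, nsmul_eq_mul]
      field_simp
      push_cast
      ring
    · intro j hj j' hj' h
      have h4 : (q - (j : ℤ) - (q - (j' : ℤ))) = (j' : ℤ) - j := by ring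
      rw [h4] at h
      exact (eq_of_res hj' hj h).symm

/-- the number of the `j` -/
theorem card_hit (a : ℤ) (ha : a ≠ 0) (b c : ℚ) (h0 : 0 ≤ c) (h1 : c < 1) [Decidable (∃ w : ℤ, (a : ℚ) * c + b = w)] :
    ((Finset.range a.natAbs).filter (fun j : ℕ => Int.fract (((j : ℚ) - b) / a) = c)).card =
      if ∃ w : ℤ, (a : ℚ) * c + b = w then 1 else 0 := by
  classical
  have haQ : (a : ℚ) ≠ 0 := Int.cast_ne_zero.2 ha
  have key : ∀ j : ℕ, Int.fract (((j : ℚ) - b) / a) = c ↔ ∃ n : ℤ, (j : ℚ) = a * c + b + a * n := by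
    intro j
    rw [Int.fract_eq_iff]
    constructor
    · rintro ⟨_, _, n, hn⟩
      refine ⟨n, ?_⟩
      rw [sub_eq_iff_eq_add, div_eq_iff haQ] at hn
      linear_combination hn
    · rintro ⟨n, hn⟩
      refine ⟨h0, h1, n, ?_⟩
      rw [sub_eq_iff_eq_add, div_eq_iff haQ]
      linear_combination hn
  split_ifs with h
  · obtain ⟨w, hw⟩ := h
    rw [← one_res a ha w]
    congr 1
    refine Finset.filter_congr fun j _ => ?_
    rw [key]
    refine exists_congr fun n => ?_
    rw [hw]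
    constructor
    · intro h
      exact_mod_cast h
    · intro h
      exact_mod_cast h
  · rw [Finset.card_eq_zero, Finset.filter_eq_empty_iff]
    intro j _ hj
    obtain ⟨n, hn⟩ := (key j).1 hj
    apply h
    refine ⟨(j : ℤ) - a * n, ?_⟩
    push_cast
    linarith

/-- if the combined divisor vanishes, so does the combination of the fractional parts -/
theorem frac_zero {ι : Type*} [Fintype ι] (a : ι → ℤ) (b : ι → ℚ) (ha : ∀ i, a i ≠ 0) (ω : ι → ℤ)
    [∀ i (α : ℚ), Decidable (∃ w : ℤ, (a i : ℚ) * α + b i = w)]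
    (hG : ∀ α : ℚ, ∑ i, ω i * (if ∃ w : ℤ, (a i : ℚ) * α + b i = w then Int.sign (a i) else 0) = 0)
    (x : ℚ) (hx : ∀ i, ∀ n : ℤ, (a i : ℚ) * x + b i ≠ n) :
    ∑ i, (ω i : ℚ) * (Int.fract ((a i : ℚ) * x + b i) - 1 / 2) = 0 := by
  classical
  let fr : ι → ℕ → ℚ := fun i j => Int.fract (((j : ℚ) - b i) / a i)
  let t : Finset ℚ := Finset.univ.biUnion fun i => (Finset.range (a i).natAbs).image (fr i)
  let g : ℚ → ℚ := fun c => Int.fract (x - c) - 1 / 2
  have h1 : ∀ i, Int.fract ((a i : ℚ) * x + b i) - 1 / 2 =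
      (Int.sign (a i) : ℚ) * ∑ j ∈ Finset.range (a i).natAbs, g (fr i j) := by
    intro i
    rw [raabe (a i) (ha i) _ (hx i)]
    congr 1
    refine Finset.sum_congr rfl fun j _ => ?_
    have haQ : (a i : ℚ) ≠ 0 := Int.cast_ne_zero.2 (ha i)
    simp only [g, fr]
    congr 1
    have h2 : (((a i : ℚ) * x + b i - j) / a i) = x - ((j : ℚ) - b i) / a i := by
      field_simp
      ring
    rw [h2]
    have h3 : x - Int.fract (((j : ℚ) - b i) / a i) = x - ((j : ℚ) - b i) / a i + ⌊((j : ℚ) - b i) / a i⌋ := by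
      rw [Int.fract]
      ring
    rw [h3, Int.fract_add_intCast]
  have h2 : ∀ i, ∀ j ∈ Finset.range (a i).natAbs, g (fr i j) = ∑ c ∈ t, if fr i j = c then g c else 0 := by
    intro i j hj
    rw [Finset.sum_ite_eq t (fr i j), if_pos]
    exact Finset.mem_biUnion.2 ⟨i, Finset.mem_univ i, Finset.mem_image_of_mem _ hj⟩
  have h3 : ∀ i, ∑ j ∈ Finset.range (a i).natAbs, g (fr i j) =
      ∑ c ∈ t, g c * (if ∃ w : ℤ, (a i : ℚ) * c + b i = w then 1 else 0) := by
    intro i
    rw [Finset.sum_congr rfl (h2 i), Finset.sum_comm]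
    refine Finset.sum_congr rfl fun c hc => ?_
    obtain ⟨i', _, hc'⟩ := Finset.mem_biUnion.1 hc
    obtain ⟨j', _, rfl⟩ := Finset.mem_image.1 hc'
    have h4 := card_hit (a i) (ha i) (b i) (fr i' j') (Int.fract_nonneg _) (Int.fract_lt_one _)
    rw [← Finset.sum_filter, Finset.sum_const, nsmul_eq_mul, h4, mul_comm]
    congr 1
    split_ifs <;> simp
  simp only [h1, h3]
  have h5 : ∀ i, (ω i : ℚ) * ((Int.sign (a i) : ℚ) * ∑ c ∈ t, g c * (if ∃ w : ℤ, (a i : ℚ) * c + b i = w then 1 else 0)) =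
      ∑ c ∈ t, g c * ((ω i * (if ∃ w : ℤ, (a i : ℚ) * c + b i = w then Int.sign (a i) else 0) : ℤ) : ℚ) := by
    intro i
    rw [Finset.mul_sum, Finset.mul_sum]
    refine Finset.sum_congr rfl fun c _ => ?_
    split_ifs
    · push_cast
      ring
    · simp
  simp only [h5]
  rw [Finset.sum_comm]
  refine Finset.sum_eq_zero fun c _ => ?_
  rw [← Finset.mul_sum, ← Int.cast_sum, hG c]
  simp

end Pool.Agent.Y456.RL
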