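import Pool.Agent.Y456.RL.Ord

set_option autoImplicit false

/-!
# The multiplier of `Γ (a z + b)`
-/

open Polynomial

namespace Pool.Agent.Y456.RL

open Pool.Agent.Y456.GJ (sp sp_apply sp_inj tau tau_alg alg_inj)

/-- the numbers `a α + b` is an integer -/
def Hit (a : ℤ) (b : ℚ) (α : ℂ) : Prop := ∃ w : ℤ, (a : ℂ) * α + b = w

/-- the product of the linear polynomials -/
noncomputable def Q (a : ℤ) (b : ℚ) : ℂ[X] :=
  ∏ j ∈ Finset.range a.natAbs, (C (a : ℂ) * X + C ((b : ℂ) + ((min a 0 : ℤ) : ℂ) + j))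

theorem lin_ne {a : ℤ} (ha : a ≠ 0) (c : ℂ) : C (a : ℂ) * X + C c ≠ 0 := by
  intro h
  have h1 := congrArg (fun p : ℂ[X] => p.coeff 1) h
  simp at h1
  exact ha h1

theorem Q_ne {a : ℤ} (ha : a ≠ 0) (b : ℚ) : Q a b ≠ 0 :=
  Finset.prod_ne_zero_iff.2 fun _ _ => lin_ne ha _

open Classical in
theorem cnt_Q {a : ℤ} (ha : a ≠ 0) (b : ℚ) (α : ℂ) : cnt α (Q a b) = if Hit a b α then 1 else 0 := by
  rw [Q, cnt_prod α _ _ fun _ _ => lin_ne ha _]
  have haC : (a : ℂ) ≠ 0 := Int.cast_ne_zero.2 ha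
  simp only [cnt_lin α (a : ℂ) _ haC]
  rw [← Finset.card_filter]
  split_ifs with h
  · obtain ⟨w, hw⟩ := h
    rw [← one_res a ha (-w)]
    congr 1
    refine Finset.filter_congr fun j _ => ?_
    have hmin : min a 0 = 0 ∨ min a 0 = a := by omega
    constructor
    · rintro ⟨n, hn⟩
      have h1 : (w : ℂ) + a * n + ((min a 0 : ℤ) : ℂ) + j = 0 := by
        rw [← hw]
        linear_combination hn
      have h2 : w + a * n + min a 0 + j = 0 := by exact_mod_cast h1
      rcases hmin with h3 | h3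
      · refine ⟨-n, ?_⟩
        rw [h3] at h2
        linear_combination h2
      · refine ⟨-n - 1, ?_⟩
        rw [h3] at h2
        linear_combination h2
    · rintro ⟨n, hn⟩
      have h1 : ∀ n' : ℤ, (j : ℤ) + w + a * n' + min a 0 = 0 →
          ∃ n : ℤ, (a : ℂ) * (α + n) + ((b : ℂ) + ((min a 0 : ℤ) : ℂ) + j) = 0 := by
        intro n' h2
        refine ⟨n', ?_⟩
        have h3 : (j : ℂ) + w + a * n' + ((min a 0 : ℤ) : ℂ) = 0 := by exact_mod_cast h2
        rw [← hw] at h3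
        linear_combination h3
      rcases hmin with h3 | h3
      · apply h1 (-n)
        rw [h3, hn]
        ring
      · apply h1 (-n - 1)
        rw [h3, hn]
        ring
  · rw [Finset.card_eq_zero, Finset.filter_eq_empty_iff]
    rintro j - ⟨n, hn⟩
    apply h
    refine ⟨-(a * n + min a 0 + j), ?_⟩
    push_cast
    linear_combination hn

theorem gam_add (w : ℂ) (h : ∀ k : ℤ, w ≠ k) (n : ℕ) :
    Complex.Gamma (w + n) = (∏ j ∈ Finset.range n, (w + j)) * Complex.Gamma w := by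
  induction n with
  | zero => simp
  | succ n ih =>
    have h1 : w + n ≠ 0 := by
      intro h0
      apply h (-n)
      push_cast
      linear_combination h0
    rw [Finset.prod_range_succ, Nat.cast_succ, ← add_assoc, Complex.Gamma_add_one _ h1, ih]
    ring

/-- no argument is an integer -/
def Gen (a : ℤ) (b : ℚ) (z : ℂ) : Prop := ∀ n : ℤ, (a : ℂ) * z + b ≠ n

theorem eval_Q (a : ℤ) (b : ℚ) (z : ℂ) :
    (Q a b).eval z = ∏ j ∈ Finset.range a.natAbs, ((a : ℂ) * z + b + ((min a 0 : ℤ) : ℂ) + j) := by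
  rw [Q, eval_prod]
  refine Finset.prod_congr rfl fun j _ => ?_
  simp only [eval_add, eval_mul, eval_C, eval_X]
  ring

theorem gam_pos {a : ℤ} (ha : 0 < a) (b : ℚ) (z : ℂ) (hz : Gen a b z) :
    Complex.Gamma ((a : ℂ) * (z + 1) + b) = (Q a b).eval z * Complex.Gamma ((a : ℂ) * z + b) := by
  have h1 : ((a.natAbs : ℕ) : ℂ) = a := by
    have h : ((a.natAbs : ℕ) : ℤ) = a := by omega
    rw [← Int.cast_natCast, h]
  have h2 := gam_add ((a : ℂ) * z + b) hz a.natAbs
  rw [h1] at h2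
  rw [show (a : ℂ) * (z + 1) + b = (a : ℂ) * z + b + a by ring, h2, eval_Q]
  congr 1
  refine Finset.prod_congr rfl fun j _ => ?_
  rw [min_eq_right ha.le]
  simp

theorem gam_neg {a : ℤ} (ha : a < 0) (b : ℚ) (z : ℂ) (hz : Gen a b z) :
    Complex.Gamma ((a : ℂ) * z + b) = (Q a b).eval z * Complex.Gamma ((a : ℂ) * (z + 1) + b) := by
  have h1 : ((a.natAbs : ℕ) : ℂ) = -a := by
    have h : ((a.natAbs : ℕ) : ℤ) = -a := by omega
    rw [← Int.cast_natCast, h, Int.cast_neg]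
  have h2 := gam_add ((a : ℂ) * (z + 1) + b) (fun k hk => hz (k - a) (by push_cast; rw [← hk]; ring)) a.natAbs
  rw [h1] at h2
  rw [show (a : ℂ) * z + b = (a : ℂ) * (z + 1) + b + -a by ring, h2, eval_Q]
  congr 1
  refine Finset.prod_congr rfl fun j _ => ?_
  rw [min_eq_left ha.le]
  ring

/-- the multiplier -/
noncomputable def mult (a : ℤ) (b : ℚ) (ha : a ≠ 0) : (RatFunc ℂ)ˣ :=
  (Units.mk0 (algebraMap ℂ[X] (RatFunc ℂ) (Q a b)) ((map_ne_zero_iff _ alg_inj).2 (Q_ne ha b))) ^ Int.sign a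

open Classical in
theorem ord_mult {a : ℤ} (ha : a ≠ 0) (b : ℚ) (α : ℂ) :
    ord α (mult a b ha : RatFunc ℂ) = if Hit a b α then Int.sign a else 0 := by
  rw [← ordH_apply, mult, map_zpow, toAdd_zpow, ordH_apply, Units.val_mk0, ord_alg _ _ (Q_ne ha b), cnt_Q ha]
  split_ifs <;> simp

end Pool.Agent.Y456.RL
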