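import Pool.Agent.Y456.RL.Fam

set_option autoImplicit false

/-!
# Independence of products of values of the Gamma function at affine functions
-/

open MvPolynomial Filter Topology

namespace Pool.Agent.Y456.RL

open Pool.Agent.Y456.GJ (sp sp_apply sp_inj tau tau_alg alg_inj XX)
open Pool.Agent.Y456.DF

section em

variable (D : Dom)

theorem em_one : em D (fun _ => 1) analyticOnNhd_const = 1 := by
  exact map_one (algebraMap (Hol D) (E D))

theorem em_pow {f : ℂ → ℂ} (hf : AnalyticOnNhd ℂ f D.U) (k : ℕ) :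
    em D (fun z => f z ^ k) (hf.pow k) = em D f hf ^ k := by
  induction k with
  | zero =>
    rw [pow_zero, ← em_one D]
    apply em_congr
    intro z _
    rw [pow_zero]
  | succ k ih =>
    rw [pow_succ, ← ih, ← em_mul]
    apply em_congr
    intro z _
    rw [pow_succ]
    rfl

theorem em_zpow {f : ℂ → ℂ} (hf : AnalyticOnNhd ℂ f D.U) (hne : ∀ z ∈ D.U, f z ≠ 0) (k : ℤ)
    (hk : AnalyticOnNhd ℂ (fun z => f z ^ k) D.U) :
    em D (fun z => f z ^ k) hk = em D f hf ^ k := by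
  obtain ⟨n, rfl | rfl⟩ := Int.eq_nat_or_neg k
  · rw [zpow_natCast, ← em_pow]
    apply em_congr
    intro z _
    rw [zpow_natCast]
  · rw [zpow_neg, zpow_natCast, ← em_pow]
    apply eq_inv_of_mul_eq_one_left
    rw [← em_mul, ← em_one D]
    apply em_congr
    intro z hz
    simp only [Pi.mul_apply, zpow_neg, zpow_natCast]
    exact inv_mul_cancel₀ (pow_ne_zero _ (hne z hz))

theorem em_prod {ι : Type*} (s : Finset ι) (f : ι → ℂ → ℂ) (hf : ∀ i, AnalyticOnNhd ℂ (f i) D.U)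
    (h : AnalyticOnNhd ℂ (fun z => ∏ i ∈ s, f i z) D.U) :
    em D (fun z => ∏ i ∈ s, f i z) h = ∏ i ∈ s, em D (f i) (hf i) := by
  classical
  induction s using Finset.induction_on with
  | empty =>
    rw [Finset.prod_empty, ← em_one D]
    apply em_congr
    intro z _
    rw [Finset.prod_empty]
  | insert i s hi ih =>
    have h1 : AnalyticOnNhd ℂ (fun z => ∏ i ∈ s, f i z) D.U := fun z hz =>
      Finset.analyticAt_fun_prod _ fun i _ => hf i z hz
    rw [Finset.prod_insert hi, ← ih h1, ← em_mul]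
    apply em_congr
    intro z _
    rw [Finset.prod_insert hi]
    rfl

end em

variable {ι : Type} [Fintype ι] (a : ι → ℤ) (b : ι → ℚ) (ha : ∀ i, a i ≠ 0)

theorem gam_anM (i : ι) : AnalyticOnNhd ℂ (fun z : ℂ => Complex.Gamma ((a i : ℂ) * z + b i)) (DG a b ha).U :=
  fun z hz => gam_an (hz i)

theorem P_anM (κ : ι → ℤ) : AnalyticOnNhd ℂ (P a b κ) (DG a b ha).U := fun z hz => P_an a b κ hz

theorem T_gam (i : ι) (h : AnalyticOnNhd ℂ (fun z : ℂ => Complex.Gamma ((a i : ℂ) * z + b i)) (DG a b ha).U) :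
    T (DG a b ha) (em (DG a b ha) _ h) = ph (DG a b ha) (mult (a i) (b i) (ha i) : RatFunc ℂ) * em (DG a b ha) _ h := by
  have hU : (DG a b ha).U = UG a b := rfl
  have hQ : ph (DG a b ha) (algebraMap (Polynomial ℂ) (RatFunc ℂ) (Q (a i) (b i))) =
      em (DG a b ha) (fun z => (Q (a i) (b i)).eval z) (fun z _ => (Q (a i) (b i)).differentiable.analyticAt z) := by
    rw [ph_alg, pl_apply]
  have hQ0 : ph (DG a b ha) (algebraMap (Polynomial ℂ) (RatFunc ℂ) (Q (a i) (b i))) ≠ 0 :=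
    (map_ne_zero _).2 ((map_ne_zero_iff _ alg_inj).2 (Q_ne (ha i) _))
  rcases lt_or_gt_of_ne (ha i) with h0 | h0
  · have h1 : (mult (a i) (b i) (ha i) : RatFunc ℂ) = (algebraMap (Polynomial ℂ) (RatFunc ℂ) (Q (a i) (b i)))⁻¹ := by
      rw [mult, Int.sign_eq_neg_one_of_neg h0, zpow_neg_one]
      rfl
    rw [h1, map_inv₀, eq_comm, inv_mul_eq_iff_eq_mul₀ hQ0, hQ, T_em, ← em_mul]
    apply em_congr
    intro z hz
    exact gam_neg h0 (b i) z (hz i)
  · have h1 : (mult (a i) (b i) (ha i) : RatFunc ℂ) = algebraMap (Polynomial ℂ) (RatFunc ℂ) (Q (a i) (b i)) := by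
      rw [mult, Int.sign_eq_one_of_pos h0, zpow_one]
      rfl
    rw [h1, hQ, T_em, ← em_mul]
    apply em_congr
    intro z hz
    exact gam_pos h0 (b i) z (hz i)

/-- the multiplier of the product -/
noncomputable def multP (κ : ι → ℤ) : (RatFunc ℂ)ˣ := ∏ i, mult (a i) (b i) (ha i) ^ κ i

open Classical in
theorem ord_multP (κ : ι → ℤ) (α : ℂ) : ord α (multP a b ha κ : RatFunc ℂ) =
    ∑ i, κ i * if Hit (a i) (b i) α then Int.sign (a i) else 0 := by
  rw [← ordH_apply, multP, map_prod, toAdd_prod]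
  refine Finset.sum_congr rfl fun i _ => ?_
  rw [map_zpow, toAdd_zpow, ordH_apply, ord_mult, smul_eq_mul]

theorem P_eq (κ : ι → ℤ) (h : ∀ i, AnalyticOnNhd ℂ (fun z : ℂ => Complex.Gamma ((a i : ℂ) * z + b i)) (DG a b ha).U)
    (hP : AnalyticOnNhd ℂ (P a b κ) (DG a b ha).U) :
    em (DG a b ha) (P a b κ) hP = ∏ i, em (DG a b ha) _ (h i) ^ κ i := by
  have h1 : ∀ i, AnalyticOnNhd ℂ (fun z : ℂ => Complex.Gamma ((a i : ℂ) * z + b i) ^ κ i) (DG a b ha).U :=
    fun i z hz => (gam_an (hz i)).fun_zpow (gam_ne (hz i))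
  rw [show em (DG a b ha) (P a b κ) hP = em (DG a b ha) (fun z => ∏ i, Complex.Gamma ((a i : ℂ) * z + b i) ^ κ i) hP from rfl,
    em_prod (DG a b ha) Finset.univ (fun i z => Complex.Gamma ((a i : ℂ) * z + b i) ^ κ i) h1]
  refine Finset.prod_congr rfl fun i _ => ?_
  exact em_zpow (DG a b ha) (h i) (fun z hz => gam_ne (hz i)) (κ i) _

theorem T_P (κ : ι → ℤ) (hP : AnalyticOnNhd ℂ (P a b κ) (DG a b ha).U) :
    T (DG a b ha) (em (DG a b ha) (P a b κ) hP) = ph (DG a b ha) (multP a b ha κ : RatFunc ℂ) * em (DG a b ha) (P a b κ) hP := by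
  rw [P_eq a b ha κ (gam_anM a b ha) hP, map_prod, multP, Units.coe_prod, map_prod, ← Finset.prod_mul_distrib]
  refine Finset.prod_congr rfl fun i _ => ?_
  rw [map_zpow₀, T_gam a b ha i, mul_zpow, Units.val_zpow_eq_zpow_val, map_zpow₀]

/-- the combined orders -/
def IndOrd {S : Type} [Fintype S] (κ : S → ι → ℤ) : Prop :=
  ∀ e : S → ℤ, (∀ α : ℚ, ∑ s, e s * ord (α : ℂ) (multP a b ha (κ s) : RatFunc ℂ) = 0) → e = 0

theorem P_indep {S : Type} [Fintype S] (κ : S → ι → ℤ) (hκ : IndOrd a b ha κ) (F : MvPolynomial S (RatFunc ℂ))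
    (hF : eval₂ (ph (DG a b ha)) (fun s => em (DG a b ha) (P a b (κ s)) (P_anM a b ha (κ s))) F = 0) : F = 0 := by
  refine mono_indep tau (T (DG a b ha)) (ph (DG a b ha)) (T_ph (DG a b ha)) (fun s => (multP a b ha (κ s) : RatFunc ℂ)) _ ?_ ?_ ?_
    _ F le_rfl hF
  · intro s h
    rw [em_eq_zero_iff] at h
    obtain ⟨z, hz⟩ := (DG a b ha).ne
    exact P_ne a b (κ s) (hz) (h z hz)
  · intro s
    exact T_P a b ha (κ s) _
  · exact fun k k' u v hu hv h => crit (fun s => multP a b ha (κ s)) hκ k k' u v hu hv h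

end Pool.Agent.Y456.RL
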