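import Pool.Agent.Y456.RL.Ind

set_option autoImplicit false

/-!
# Counting
-/

open MvPolynomial Filter Topology

namespace Pool.Agent.Y456.RL

open Pool.Agent.Y456.GJ (sp sp_apply sp_inj tau tau_alg alg_inj XX)
open Pool.Agent.Y456.DF
open Pool.Agent.Y120 (HtLe)

variable {ι : Type} [Fintype ι] (a : ι → ℤ) (b : ι → ℚ) (ha : ∀ i, a i ≠ 0)
  {S : Type} [Fintype S] (κ : S → ι → ℤ)

/-- the values -/
noncomputable def val (z : ℂ) (o : Option S) : ℂ := o.elim z fun s => P a b (κ s) z

omit [Fintype S] in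
theorem val_an (Q : MvPolynomial (Option S) ℂ) :
    AnalyticOnNhd ℂ (fun z => eval (val a b κ z) Q) (DG a b ha).U := by
  induction Q using MvPolynomial.induction_on with
  | C a =>
    simp only [eval_C]
    exact analyticOnNhd_const
  | add p q hp hq =>
    simp only [map_add]
    exact hp.add hq
  | mul_X p i hp =>
    simp only [map_mul, eval_X]
    refine hp.mul ?_
    rcases i with _ | y
    · exact analyticOnNhd_id
    · exact P_anM a b ha (κ y)

/-- regrouping -/
noncomputable def Pj (S : Type) : MvPolynomial (Option S) ℂ →+* MvPolynomial S (RatFunc ℂ) :=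
  (MvPolynomial.map (algebraMap (Polynomial ℂ) (RatFunc ℂ))).comp ((optionEquivRight ℂ S).toRingEquiv.toRingHom)

theorem Pj_inj (S : Type) : Function.Injective (Pj S) := by
  rw [Pj]
  simp only [RingHom.coe_comp]
  exact Function.Injective.comp (map_injective _ alg_inj) (optionEquivRight ℂ S).injective

theorem val_indep (hκ : IndOrd a b ha κ) (F : MvPolynomial (Option S) ℂ)
    (h : ∀ z ∈ UG a b, eval (val a b κ z) F = 0) : F = 0 := by
  have key : ∀ Q : MvPolynomial (Option S) ℂ,
      eval₂ (ph (DG a b ha)) (fun s => em (DG a b ha) (P a b (κ s)) (P_anM a b ha (κ s))) (Pj S Q) =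
        em (DG a b ha) _ (val_an a b ha κ Q) := by
    intro Q
    induction Q using MvPolynomial.induction_on with
    | C c =>
      have h1 : Pj S (C c) = C (algebraMap (Polynomial ℂ) (RatFunc ℂ) (Polynomial.C c)) := by
        simp [Pj]
      rw [h1, eval₂_C, ph_alg, pl_apply]
      apply em_congr
      intro z _
      simp
    | add p q hp hq =>
      rw [map_add, eval₂_add, hp, hq, ← em_add]
      apply em_congr
      intro z _
      simp
    | mul_X p i hp =>
      have h1 : ∀ hi : AnalyticOnNhd ℂ (fun z => val a b κ z i) (DG a b ha).U,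
          eval₂ (ph (DG a b ha)) (fun s => em (DG a b ha) (P a b (κ s)) (P_anM a b ha (κ s))) (Pj S (X i)) =
            em (DG a b ha) _ hi →
          eval₂ (ph (DG a b ha)) (fun s => em (DG a b ha) (P a b (κ s)) (P_anM a b ha (κ s))) (Pj S (p * X i)) =
            em (DG a b ha) _ (val_an a b ha κ (p * X i)) := by
        intro hi h2
        rw [map_mul, eval₂_mul, hp, h2, ← em_mul]
        apply em_congr
        intro z _
        simp
      rcases i with _ | s
      · apply h1 analyticOnNhd_id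
        have h2 : Pj S (X none) = C XX := by
          simp [Pj, XX]
        rw [h2, eval₂_C, ph_XX]
        rfl
      · apply h1 (P_anM a b ha (κ s))
        have h2 : Pj S (X (some s)) = X s := by
          simp [Pj]
        rw [h2, eval₂_X]
        rfl
  have h1 : eval₂ (ph (DG a b ha)) (fun s => em (DG a b ha) (P a b (κ s)) (P_anM a b ha (κ s))) (Pj S F) = 0 := by
    rw [key, em_eq_zero_iff]
    exact h
  exact (map_eq_zero_iff _ (Pj_inj S)).1 (P_indep a b ha κ hκ _ h1)

omit [Fintype ι] in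
theorem gam_an' {a : ℤ} {b : ℚ} {z : ℂ} (hz : ∀ n : ℕ, (a : ℂ) * z + b ≠ -n) :
    AnalyticAt ℂ (fun z : ℂ => Complex.Gamma ((a : ℂ) * z + b)) z := by
  have h1 : AnalyticAt ℂ Complex.Gamma ((a : ℂ) * z + b) := by
    rw [Complex.analyticAt_iff_eventually_differentiableAt]
    have h2 : IsClosed (Set.range fun n : ℕ => (-n : ℂ)) := by
      have h3 : (Set.range fun n : ℕ => (-n : ℂ)) = (UM 1)ᶜ ∩ {z : ℂ | z.re ≤ 0} := by
        ext w
        simp only [Set.mem_range, Set.mem_inter_iff, Set.mem_compl_iff, UM, Set.mem_ofPred_eq, Nat.cast_one, one_mul,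
          not_forall, not_not]
        constructor
        · rintro ⟨n, rfl⟩
          exact ⟨⟨-n, by simp⟩, by simp⟩
        · rintro ⟨⟨n, rfl⟩, h⟩
          have h4 : n ≤ 0 := by
            have : (n : ℝ) ≤ 0 := by simpa using h
            exact_mod_cast this
          refine ⟨(-n).toNat, ?_⟩
          have h5 : (((-n).toNat : ℕ) : ℤ) = -n := Int.toNat_of_nonneg (by omega)
          rw [← Int.cast_natCast, h5]
          simp
      rw [h3]
      exact (UM_open 1).isClosed_compl.inter (isClosed_le Complex.continuous_re continuous_const)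
    have h6 : (a : ℂ) * z + b ∉ Set.range fun n : ℕ => (-n : ℂ) := by
      rintro ⟨n, hn⟩
      exact hz n hn.symm
    filter_upwards [h2.isOpen_compl.mem_nhds h6] with w hw
    exact Complex.differentiableAt_Gamma w fun n h => hw ⟨n, h.symm⟩
  exact AnalyticAt.comp (g := Complex.Gamma) (f := fun z : ℂ => (a : ℂ) * z + b) h1 (by fun_prop)

theorem P_an' (κ : ι → ℤ) {z : ℂ} (hz : ∀ i (n : ℕ), (a i : ℂ) * z + b i ≠ -n) : AnalyticAt ℂ (P a b κ) z := by
  have : P a b κ = fun z => ∏ i, Complex.Gamma ((a i : ℂ) * z + b i) ^ κ i := rfl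
  rw [this]
  refine Finset.analyticAt_fun_prod _ fun i _ => ?_
  exact (gam_an' (hz i)).fun_zpow (Complex.Gamma_ne_zero fun n => hz i n)

include ha in
theorem main {h : Type} [Fintype h] (hκ : IndOrd a b ha κ) (m n d : ℕ) (L : Set ℂ) (hL : IsCompact L)
    (hL' : ∀ z ∈ L, ∀ i (n : ℕ), (a i : ℂ) * z + b i ≠ -n) (A ε : ℝ) (hε : 0 < ε) :
    ∃ B C T₀ : ℝ, 0 ≤ C ∧ 2 ≤ T₀ ∧ ∀ (K : Type) [Field K] [NumberField K], Module.finrank ℚ K ≤ m → ∀ (io : K →+* ℂ)
      (ξ : h → ℂ) (T : ℝ), T₀ ≤ T →
      (Pool.Agent.Y124.ExcNF n d K io ξ (fun t (s : S) => P a b (κ s) t) L A B T).Finite ∧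
      ((Pool.Agent.Y124.ExcNF n d K io ξ (fun t (s : S) => P a b (κ s) t) L A B T).ncard : ℝ) ≤
        C * T ^ ε * (({x : K | HtLe K T x ∧ io x ∈ L}.ncard : ℝ)) ^ (n - 1) := by
  classical
  have hdense : Dense (UG a b) := by
    have h1 : ((UG a b)ᶜ).Countable := UG_countable a b ha
    have h2 := h1.dense_compl ℝ
    rwa [compl_compl] at h2
  have hloc : ∀ t0 ∈ L, Pool.Agent.Y124.LocInd (𝕜 := ℂ) (fun s : S => P a b (κ s)) t0 := by
    intro t0 ht0 F hF
    apply val_indep a b ha κ hκ F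
    intro z hz
    obtain ⟨V, hV, hVo, hVt⟩ := eventually_nhds_iff.1 hF
    obtain ⟨t1, ht1, ht1V⟩ := hdense.inter_open_nonempty V hVo ⟨t0, hVt⟩
    have hF1 : ∀ᶠ t in 𝓝 t1, eval (val a b κ t) F = 0 :=
      eventually_nhds_iff.2 ⟨V, hV, hVo, ht1⟩
    exact (val_an a b ha κ F).eqOn_zero_of_preconnected_of_eventuallyEq_zero (DG a b ha).pc ht1V hF1 hz
  exact Pool.Agent.Y124.excNF m n d _ L (fun gg => Pool.Agent.Y124.oneV_of gg (fun s : S => P a b (κ s)) L hL
    (fun s t ht => P_an' a b (κ s) (hL' t ht)) hloc) A ε hε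

end Pool.Agent.Y456.RL
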