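import Pool.Agent.Y456.RL.Cnt

set_option autoImplicit false

/-!
# The order of a rational function along a class modulo the integers
-/

open Polynomial

namespace Pool.Agent.Y456.RL

open Pool.Agent.Y456.GJ (sp sp_apply sp_inj tau tau_alg alg_inj)

/-- the order of `u` along `α + ℤ` -/
noncomputable def ord (α : ℂ) (u : RatFunc ℂ) : ℤ := (cnt α u.num : ℤ) - cnt α u.denom

theorem ord_rep (α : ℂ) (u : RatFunc ℂ) (p q : ℂ[X]) (hp : p ≠ 0) (hq : q ≠ 0)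
    (h : u * algebraMap ℂ[X] (RatFunc ℂ) q = algebraMap ℂ[X] (RatFunc ℂ) p) :
    ord α u = (cnt α p : ℤ) - cnt α q := by
  have hu : u ≠ 0 := by
    rintro rfl
    rw [zero_mul] at h
    exact hp ((map_eq_zero_iff _ alg_inj).1 h.symm)
  have h1 := RatFunc.num_div_denom u
  have hd : u.denom ≠ 0 := u.denom_ne_zero
  have hn : u.num ≠ 0 := RatFunc.num_ne_zero hu
  have h2 : algebraMap ℂ[X] (RatFunc ℂ) u.denom ≠ 0 := (map_ne_zero_iff _ alg_inj).2 hd
  have h3 : u.num * q = p * u.denom := by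
    apply alg_inj
    rw [map_mul, map_mul, ← h]
    rw [div_eq_iff h2] at h1
    rw [h1]
    ring
  have h4 := congrArg (cnt α) h3
  rw [cnt_mul α hn hq, cnt_mul α hp hd] at h4
  rw [ord]
  omega

theorem exists_rep' (u : RatFunc ℂ) (hu : u ≠ 0) : ∃ p q : ℂ[X], p ≠ 0 ∧ q ≠ 0 ∧
    u * algebraMap ℂ[X] (RatFunc ℂ) q = algebraMap ℂ[X] (RatFunc ℂ) p := by
  refine ⟨u.num, u.denom, RatFunc.num_ne_zero hu, u.denom_ne_zero, ?_⟩
  have h1 := RatFunc.num_div_denom u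
  have h2 : algebraMap ℂ[X] (RatFunc ℂ) u.denom ≠ 0 := (map_ne_zero_iff _ alg_inj).2 u.denom_ne_zero
  rw [div_eq_iff h2] at h1
  exact h1.symm

theorem ord_mul (α : ℂ) (u v : RatFunc ℂ) (hu : u ≠ 0) (hv : v ≠ 0) : ord α (u * v) = ord α u + ord α v := by
  obtain ⟨p, q, hp, hq, h⟩ := exists_rep' u hu
  obtain ⟨p', q', hp', hq', h'⟩ := exists_rep' v hv
  rw [ord_rep α u p q hp hq h, ord_rep α v p' q' hp' hq' h',
    ord_rep α (u * v) (p * p') (q * q') (mul_ne_zero hp hp') (mul_ne_zero hq hq'), cnt_mul α hp hp', cnt_mul α hq hq']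
  · push_cast
    ring
  · rw [map_mul, map_mul, ← h, ← h']
    ring

theorem ord_tau (α : ℂ) (u : RatFunc ℂ) (hu : u ≠ 0) : ord α (tau u) = ord α u := by
  obtain ⟨p, q, hp, hq, h⟩ := exists_rep' u hu
  rw [ord_rep α u p q hp hq h, ord_rep α (tau u) (sp p) (sp q) ((map_ne_zero_iff sp sp_inj).2 hp)
    ((map_ne_zero_iff sp sp_inj).2 hq), cnt_sp, cnt_sp]
  rw [← tau_alg, ← tau_alg, ← h, map_mul]

theorem ord_alg (α : ℂ) (p : ℂ[X]) (hp : p ≠ 0) : ord α (algebraMap ℂ[X] (RatFunc ℂ) p) = cnt α p := by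
  rw [ord_rep α _ p 1 hp one_ne_zero (by rw [map_one, mul_one]), cnt_one]
  simp

/-- the order as a homomorphism -/
noncomputable def ordH (α : ℂ) : (RatFunc ℂ)ˣ →* Multiplicative ℤ :=
  MonoidHom.mk' (fun u => Multiplicative.ofAdd (ord α (u : RatFunc ℂ))) fun u v => by
    rw [Units.val_mul, ord_mul α _ _ u.ne_zero v.ne_zero, ofAdd_add]

theorem ordH_apply (α : ℂ) (u : (RatFunc ℂ)ˣ) : (ordH α u).toAdd = ord α (u : RatFunc ℂ) := rfl

/-- the independence criterion in terms of orders -/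
theorem crit {S : Type*} [Fintype S] (A : S → (RatFunc ℂ)ˣ)
    (hA : ∀ e : S → ℤ, (∀ α : ℚ, ∑ s, e s * ord (α : ℂ) (A s : RatFunc ℂ) = 0) → e = 0)
    (k k' : S →₀ ℕ) (u v : RatFunc ℂ) (hu : u ≠ 0) (hv : v ≠ 0)
    (h : tau u * (∏ s, (A s : RatFunc ℂ) ^ k s) * v = u * (tau v * ∏ s, (A s : RatFunc ℂ) ^ k' s)) : k = k' := by
  have h0 := hA (fun s => (k s : ℤ) - k' s) ?_
  · ext s
    have := congrFun h0 s
    simp only [Pi.zero_apply] at this
    omega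
  intro α
  have hp : ∀ k : S →₀ ℕ, ord (α : ℂ) (∏ s, (A s : RatFunc ℂ) ^ k s) = ∑ s, (k s : ℤ) * ord (α : ℂ) (A s : RatFunc ℂ) := by
    intro k
    have h1 := ordH_apply (α : ℂ) (∏ s, A s ^ k s)
    rw [map_prod] at h1
    push_cast at h1
    rw [← h1, toAdd_prod]
    refine Finset.sum_congr rfl fun s _ => ?_
    rw [map_pow, toAdd_pow, ordH_apply, nsmul_eq_mul]
  have hne : ∀ k : S →₀ ℕ, (∏ s, (A s : RatFunc ℂ) ^ k s) ≠ 0 := fun k =>
    Finset.prod_ne_zero_iff.2 fun s _ => pow_ne_zero _ (A s).ne_zero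
  have htu : tau u ≠ 0 := (map_ne_zero tau).2 hu
  have htv : tau v ≠ 0 := (map_ne_zero tau).2 hv
  have h2 := congrArg (ord (α : ℂ)) h
  rw [ord_mul _ _ _ (mul_ne_zero htu (hne k)) hv, ord_mul _ _ _ htu (hne k),
    ord_mul _ _ _ hu (mul_ne_zero htv (hne k')), ord_mul _ _ _ htv (hne k'), hp, hp, ord_tau _ _ hu, ord_tau _ _ hv] at h2
  simp only [sub_mul, Finset.sum_sub_distrib]
  linarith

end Pool.Agent.Y456.RL
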