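import Pool.Agent.Y456.RL.Frac
import Pool.Agent.Y456.RL.Main

set_option autoImplicit false

/-!
# The identity of Rohrlich's conjecture on a line
-/

open NumberField

namespace Pool.Agent.Y456.RL

theorem exists_lift (D M : ℕ) (hD : 0 < D) (hM : 0 < M) (m : ℕ) (h : m.Coprime D) :
    ∃ m' m'' : ℤ, (D : ℤ) ∣ m' - m ∧ ((D * M : ℕ) : ℤ) ∣ m' * m'' - 1 := by
  have : NeZero D := ⟨hD.ne'⟩
  have : NeZero (D * M) := ⟨(Nat.mul_pos hD hM).ne'⟩
  obtain ⟨v, hv⟩ := ZMod.unitsMap_surjective (Dvd.intro M rfl : D ∣ D * M) (ZMod.unitOfCoprime m h)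
  refine ⟨((v : ZMod (D * M)).val : ℤ), (((v⁻¹ : (ZMod (D * M))ˣ) : ZMod (D * M)).val : ℤ), ?_, ?_⟩
  · have h1 := congrArg (fun u : (ZMod D)ˣ => (u : ZMod D)) hv
    simp only [ZMod.unitsMap_def, Units.coe_map, MonoidHom.coe_coe, ZMod.coe_unitOfCoprime] at h1
    have h2 : (((v : ZMod (D * M)).val : ℤ) : ZMod D) = ((m : ℤ) : ZMod D) := by
      rw [Int.cast_natCast, Int.cast_natCast, ← h1, ← map_natCast (ZMod.castHom (Dvd.intro M rfl : D ∣ D * M) (ZMod D)),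
        ZMod.natCast_zmod_val]
    exact (ZMod.intCast_eq_intCast_iff_dvd_sub _ _ _).1 h2.symm
  · have h3 : (((v : ZMod (D * M)).val : ℤ) * (((v⁻¹ : (ZMod (D * M))ˣ) : ZMod (D * M)).val : ℤ) : ℤ) =
        ((1 : ℤ) : ZMod (D * M)) := by
      rw [Int.cast_mul, Int.cast_natCast, Int.cast_natCast, ZMod.natCast_zmod_val, ZMod.natCast_zmod_val,
        Units.mul_inv, Int.cast_one]
    exact (ZMod.intCast_eq_intCast_iff_dvd_sub _ _ _).1 h3.symm

theorem int_of_dvd {D : ℤ} {k : ℤ} (h : D ∣ k) {y : ℚ} (hy : ∃ w : ℤ, (D : ℚ) * y = w) : ∃ w : ℤ, (k : ℚ) * y = w := by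
  obtain ⟨c, rfl⟩ := h
  obtain ⟨w, hw⟩ := hy
  refine ⟨c * w, ?_⟩
  push_cast
  rw [← hw]
  ring

open Classical in
theorem transfer {ι : Type*} [Fintype ι] (a : ι → ℤ) (b : ι → ℚ) (ha : ∀ i, a i ≠ 0) (ω : ι → ℤ)
    (hG : ∀ α : ℚ, ∑ i, ω i * (if ∃ w : ℤ, (a i : ℚ) * α + b i = w then Int.sign (a i) else 0) = 0)
    (x : ℚ) (hx : ∀ i, ∀ n : ℤ, (a i : ℚ) * x + b i ≠ n) (D : ℕ) (hD : 0 < D)
    (hDx : ∀ i, ∃ k : ℤ, (D : ℚ) * ((a i : ℚ) * x + b i) = k) (m : ℕ) (hm : m.Coprime D) :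
    ∑ i, (ω i : ℚ) * (Int.fract ((m : ℚ) * ((a i : ℚ) * x + b i)) - 1 / 2) = 0 := by
  set M : ℕ := ∏ i, ((a i).natAbs * (b i).den) with hMdef
  have hM : 0 < M := Finset.prod_pos fun i _ => Nat.mul_pos (Int.natAbs_pos.2 (ha i)) (b i).den_pos
  have hMa : ∀ i (w : ℤ), ∃ k : ℤ, (M : ℚ) * (((w : ℚ) - b i) / a i) = k := by
    intro i w
    obtain ⟨c, hc⟩ : (a i).natAbs * (b i).den ∣ M := Finset.dvd_prod_of_mem (fun i => (a i).natAbs * (b i).den) (Finset.mem_univ i)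
    have haQ : (a i : ℚ) ≠ 0 := Int.cast_ne_zero.2 (ha i)
    have h1 : ∃ s : ℤ, (((a i).natAbs : ℕ) : ℤ) = s * a i := by
      rcases Int.natAbs_eq (a i) with h | h
      · exact ⟨1, by omega⟩
      · exact ⟨-1, by omega⟩
    obtain ⟨s, hs⟩ := h1
    have hs' : (((a i).natAbs : ℕ) : ℚ) = s * a i := by
      rw [← Int.cast_natCast, hs, Int.cast_mul]
    refine ⟨s * c * (w * (b i).den - (b i).num), ?_⟩
    rw [hc]
    push_cast
    have hb : (b i : ℚ) * (b i).den = (b i).num := Rat.mul_den_eq_num (b i)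
    rw [hs', ← hb]
    field_simp
  have hMb : ∀ i, ∃ k : ℤ, (M : ℚ) * b i = k := by
    intro i
    obtain ⟨c, hc⟩ : (a i).natAbs * (b i).den ∣ M := Finset.dvd_prod_of_mem (fun i => (a i).natAbs * (b i).den) (Finset.mem_univ i)
    refine ⟨(a i).natAbs * c * (b i).num, ?_⟩
    have hb : (b i : ℚ) * (b i).den = (b i).num := Rat.mul_den_eq_num (b i)
    have h2 : (M : ℚ) = ((a i).natAbs : ℚ) * (b i).den * c := by exact_mod_cast congrArg (Nat.cast : ℕ → ℚ) hc
    rw [h2, Int.cast_mul, Int.cast_mul, Int.cast_natCast, Int.cast_natCast, ← hb]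
    ring
  obtain ⟨m', m'', hm1, hm2⟩ := exists_lift D M hD hM m hm
  have hm2D : (D : ℤ) ∣ m' * m'' - 1 := (Int.natCast_dvd_natCast.2 (Dvd.intro M rfl)).trans hm2
  have hm2M : (M : ℤ) ∣ m' * m'' - 1 := (Int.natCast_dvd_natCast.2 (Dvd.intro_left D rfl)).trans hm2
  -- the shifted line
  have h1 := frac_zero a (fun i => (m' : ℚ) * b i) ha ω ?_ ((m' : ℚ) * x) ?_
  · rw [← h1]
    refine Finset.sum_congr rfl fun i _ => ?_
    congr 2
    obtain ⟨w, hw⟩ := int_of_dvd hm1 (y := (a i : ℚ) * x + b i) (by simpa using hDx i)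
    have h2 : (a i : ℚ) * (m' * x) + m' * b i = (m : ℚ) * ((a i : ℚ) * x + b i) + w := by
      rw [← hw]
      push_cast
      ring
    rw [h2, Int.fract_add_intCast]
  · intro α
    by_cases hα : ∃ k : ℤ, (M : ℚ) * α = k
    · refine Eq.trans ?_ (hG ((m'' : ℚ) * α))
      refine Finset.sum_congr rfl fun i _ => ?_
      congr 1
      have h3 : (∃ w : ℤ, (a i : ℚ) * α + (m' : ℚ) * b i = w) ↔ ∃ w : ℤ, (a i : ℚ) * ((m'' : ℚ) * α) + b i = w := by
        obtain ⟨u, hu⟩ := int_of_dvd hm2M (y := b i) (by simpa using hMb i)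
        obtain ⟨v, hv⟩ := int_of_dvd hm2M (y := α) (by simpa using hα)
        constructor
        · rintro ⟨w, hw⟩
          refine ⟨m'' * w - u, ?_⟩
          push_cast
          rw [← hw, ← hu]
          push_cast
          ring
        · rintro ⟨w, hw⟩
          refine ⟨m' * w - a i * v, ?_⟩
          push_cast
          rw [← hw, ← hv]
          push_cast
          ring
      exact if_congr h3 rfl rfl
    · refine Finset.sum_eq_zero fun i _ => ?_
      rw [if_neg, mul_zero]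
      rintro ⟨w, hw⟩
      apply hα
      obtain ⟨k, hk⟩ := hMa i w
      obtain ⟨u, hu⟩ : ∃ u : ℤ, (M : ℚ) * (((m' - 1 : ℤ) : ℚ) * b i / a i) = u := by
        obtain ⟨k0, hk0⟩ := hMa i 0
        refine ⟨-(m' - 1) * k0, ?_⟩
        push_cast
        rw [← hk0]
        push_cast
        ring
      refine ⟨k - u, ?_⟩
      push_cast
      rw [← hk, ← hu]
      have haQ : (a i : ℚ) ≠ 0 := Int.cast_ne_zero.2 (ha i)
      have h4 : α = ((w : ℚ) - m' * b i) / a i := by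
        rw [eq_div_iff haQ, ← hw]
        ring
      rw [h4]
      push_cast
      field_simp
      ring
  · intro i n hn
    obtain ⟨w, hw⟩ := int_of_dvd hm2D (y := (a i : ℚ) * x + b i) (by simpa using hDx i)
    apply hx i (m'' * n - w)
    push_cast
    rw [← hn, ← hw]
    push_cast
    ring

/-- independence of one product -/
theorem ind_one {ι : Type} [Fintype ι] (a : ι → ℤ) (b : ι → ℚ) (ha : ∀ i, a i ≠ 0) (κ : ι → ℤ) (α : ℚ)
    (h : ord (α : ℂ) (multP a b ha κ : RatFunc ℂ) ≠ 0) : IndOrd a b ha (fun _ : Unit => κ) := by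
  intro e he
  have h1 := he α
  rw [Fintype.sum_unique] at h1
  funext u
  rcases mul_eq_zero.1 h1 with h2 | h2
  · exact h2
  · exact absurd h2 h

open Classical in
theorem ord_rat {ι : Type} [Fintype ι] (a : ι → ℤ) (b : ι → ℚ) (ha : ∀ i, a i ≠ 0) (κ : ι → ℤ) (α : ℚ) :
    ord (α : ℂ) (multP a b ha κ : RatFunc ℂ) =
      ∑ i, κ i * (if ∃ w : ℤ, (a i : ℚ) * α + b i = w then Int.sign (a i) else 0) := by
  rw [ord_multP]
  refine Finset.sum_congr rfl fun i _ => ?_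
  congr 1
  have h1 : Hit (a i) (b i) (α : ℂ) ↔ ∃ w : ℤ, (a i : ℚ) * α + b i = w := by
    rw [Hit]
    refine exists_congr fun w => ?_
    constructor
    · intro h
      exact_mod_cast h
    · intro h
      exact_mod_cast h
  simp only [h1]

end Pool.Agent.Y456.RL
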